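import Pool.Agent.helper83.LS.Spec3
import Pool.Agent.helper88.GH.Tree

set_option autoImplicit false

/-!
# MP_60c1a7_co: CB, components of the tree minus the path that are paths
-/

namespace LSH

theorem CB_step {n : ℕ} {T : SimpleGraph (Fin n)} (hT : T.IsTree) (r s u w : Fin n)
    (h : T.Adj u w) (hd : T.dist r w = T.dist r u + 1) (hw : onPath T r s w) :
    onPath T r s u := by
  unfold onPath at hw ⊢
  have h1 : T.dist u s ≤ T.dist u w + T.dist w s := hT.connected.dist_triangle
  have h2 : T.dist u w = 1 := SimpleGraph.dist_eq_one_iff_adj.2 h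
  have h3 : T.dist r s ≤ T.dist r u + T.dist u s := hT.connected.dist_triangle
  omega

theorem CB : CB_stmt := by
  intro n T hT r s h v hv
  have hempty : {w | T.Adj v w ∧ T.dist r w = T.dist r v + 1 ∧
      (T.neighborSet w).ncard = 3} = ∅ := by
    rw [Set.eq_empty_iff_forall_notMem]
    rintro w ⟨hvw, hd, h3⟩
    have hw : ¬ onPath T r s w := fun hw => hv (CB_step hT r s v w hvw hd hw)
    have hx : ∀ x, T.Adj w x → ¬ onPath T r s x := by
      intro x hwx hx
      rcases hT.dist_eq_dist_add_one_of_adj r hwx with h1 | h1
      · have : x = v := Pool.Agent.helper88.GH.parent_unique hT r w x v hwx.symm hvw h1 hd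
        subst this
        exact hv hx
      · exact hw (CB_step hT r s w x hwx h1 hx)
    have h4 : {x | T.Adj w x ∧ ¬ onPath T r s x} = T.neighborSet w := by
      ext x
      constructor
      · exact fun hx' => hx'.1
      · exact fun hx' => ⟨hx', hx x hx'⟩
    have h5 := h w hw
    rw [h4, h3] at h5
    omega
  rw [hempty, Set.ncard_empty]
  omega

end LSH
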