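import Pool.Agent.helper83.LS.Spec

set_option autoImplicit false

/-!
# MP_60c1a7_co: DW, the property W in the other directions
-/

namespace LSH

theorem DW_fyfy (z : Pt) : fy (fy z) = z := by
  simp [fy]

theorem DW_swsw (z : Pt) : sw (sw z) = z := by
  simp [sw]

theorem DW_imfy (S : Finset Pt) : (S.image fy).image fy = S := by
  rw [Finset.image_image]
  have : fy ∘ fy = id := by
    funext z
    exact DW_fyfy z
  rw [this, Finset.image_id]

theorem DW_imsw (S : Finset Pt) : (S.image sw).image sw = S := by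
  rw [Finset.image_image]
  have : sw ∘ sw = id := by
    funext z
    exact DW_swsw z
  rw [this, Finset.image_id]

/-- `DW`. -/
theorem DW (hSM : SM_stmt) (hGI : GI_stmt) (hEE : EE_stmt) : DW_stmt := by
  intro t hW
  obtain ⟨-, sm2, sm3, -, -, -, smr⟩ := hSM
  have part2 : ∀ (S : Finset Pt) (p : Pt), S.card = t.size → Gen (insert p (S : Set Pt)) →
      (∀ s ∈ S, p.1 < s.1 ∧ p.2 < s.2) → ∃ d, Att p false t S d := by
    intro S p hS hG h
    obtain ⟨-, -, hg, hc⟩ := hGI p S hG
    obtain ⟨d, k, hd, hk⟩ := hW (S.image sw) (sw p) (hc.trans hS) hg (by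
      intro s hs
      obtain ⟨z, hz, rfl⟩ := Finset.mem_image.mp hs
      exact (h z hz).2)
    have hroot : d.root ∈ S.image sw := by
      have := hEE.2.1 d
      rw [hd.2.1] at this
      exact this
    obtain ⟨z, hz, hzr⟩ := Finset.mem_image.mp hroot
    have hk1 : k = true := by
      rcases hk with hk | hk
      · exact hk
      · exfalso
        rw [← hzr] at hk
        have := (h z hz).1
        simp only [sw] at hk
        linarith
    subst hk1
    have h1 := sm3 _ _ _ _ _ hd
    rw [DW_swsw, DW_imsw] at h1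
    exact ⟨_, h1⟩
  intro S p hS hG
  obtain ⟨-, ⟨hg, hc⟩, -⟩ := hGI p S hG
  refine ⟨?_, part2 S p hS hG, ?_⟩
  · intro h
    obtain ⟨d, k, hd, hk⟩ := hW (S.image fy) (fy p) (hc.trans hS) hg (by
      intro s hs
      obtain ⟨z, hz, rfl⟩ := Finset.mem_image.mp hs
      exact h z hz)
    have h1 := sm2 _ _ _ _ _ hd
    rw [DW_fyfy, DW_imfy] at h1
    refine ⟨_, k, h1, ?_⟩
    rcases hk with hk | hk
    · exact Or.inl hk
    · right
      rw [smr]
      simp only [fy] at hk ⊢
      linarith
  · intro h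
    obtain ⟨d, hd⟩ := part2 (S.image fy) (fy p) (hc.trans hS) hg (by
      intro s hs
      obtain ⟨z, hz, rfl⟩ := Finset.mem_image.mp hs
      have := h z hz
      simp only [fy]
      exact ⟨this.1, by linarith [this.2]⟩)
    have h1 := sm2 _ _ _ _ _ hd
    rw [DW_fyfy, DW_imfy] at h1
    exact ⟨_, h1⟩

end LSH
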